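import Pool.Agent.N848.OL.Stm

/-!
# Project OL (helper848), leaf RTP: relative units close to `1` are `p`-th powers
-/

set_option autoImplicit false

namespace Pool.Agent.N118.OL

open NumberField IsDedekindDomain Module Pool.Agent.N848.OL

theorem t_RTP (hMUZ : S_MUZ) (hNMT : S_NMT) (hNMD : S_NMD) : S_RTP := by
  intro p hpF hp2 F K _ _ _ _ _ hNM hPPP M hM z hz hdvd
  have hpp : p.Prime := hpF.out
  have hp0 : (p : K) ≠ 0 := Nat.cast_ne_zero.2 hpp.ne_zero
  have hzK : ((z : 𝓞 K) : K) ≠ 0 := by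
    intro h
    have h1 : ((z : 𝓞 K) : K) * (((z⁻¹ : (𝓞 K)ˣ) : 𝓞 K) : K) = 1 := by
      rw [← map_mul, Units.mul_inv, map_one]
    rw [h, zero_mul] at h1
    exact zero_ne_one h1
  obtain ⟨c0, hc0⟩ := hdvd
  have hc0' : ((z : 𝓞 K) : K) - 1 = (p : K) ^ M * (c0 : K) := by
    have h := congrArg (algebraMap (𝓞 K) K) hc0
    rw [map_sub, map_one, map_mul, map_pow, map_natCast] at h
    exact h
  -- valuation facts
  have vle : ∀ (v : HeightOneSpectrum (𝓞 K)) (x : 𝓞 K), v.valuation K (x : K) ≤ 1 := fun v x =>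
    v.valuation_le_one x
  have vple : ∀ v : HeightOneSpectrum (𝓞 K), v.valuation K (p : K) ≤ 1 := by
    intro v
    have h : v.valuation K (algebraMap (𝓞 K) K (p : 𝓞 K)) ≤ 1 := v.valuation_le_one _
    rw [map_natCast] at h
    exact h
  have vz1 : ∀ v : HeightOneSpectrum (𝓞 K), v.valuation K (((z : 𝓞 K) : K) - 1) ≤
      v.valuation K ((p : K) ^ M) := by
    intro v
    rw [hc0', map_mul]
    exact mul_le_of_le_one_right' (vle v c0)
  have vz : ∀ (v : HeightOneSpectrum (𝓞 K)) (y : (𝓞 K)ˣ), v.valuation K ((y : 𝓞 K) : K) = 1 := by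
    intro v y
    have h1 : v.valuation K ((y : 𝓞 K) : K) * v.valuation K (((y⁻¹ : (𝓞 K)ˣ) : 𝓞 K) : K) = 1 := by
      rw [← map_mul, ← map_mul, Units.mul_inv, map_one, map_one]
    refine le_antisymm (vle v _) ?_
    calc (1 : _) = v.valuation K ((y : 𝓞 K) : K) * v.valuation K (((y⁻¹ : (𝓞 K)ˣ) : 𝓞 K) : K) :=
          h1.symm
      _ ≤ v.valuation K ((y : 𝓞 K) : K) := mul_le_of_le_one_right' (vle v _)
  -- step A
  have hUn : ∀ v : HeightOneSpectrum (𝓞 K), UnP p v ((z : 𝓞 K) : K) := by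
    intro v
    refine ⟨1, ?_, ?_⟩
    · rw [one_pow, mul_one]
      exact vz v z
    · rw [one_pow, mul_one]
      refine (vz1 v).trans ?_
      rw [map_pow, map_pow]
      exact pow_le_pow_right_of_le_one' (vple v) hM
  -- step B
  obtain ⟨w0, hw0⟩ := hPPP _ hzK hUn ⟨1, by rw [hz, one_pow]⟩
  have hint : IsIntegral ℤ w0 := by
    refine IsIntegral.of_pow (n := p) hpp.pos ?_
    rw [← hw0]
    exact RingOfIntegers.isIntegral_coe _
  have hn : Algebra.norm F w0 = 1 := by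
    refine hNMT p hp2 F (hNMD p F K hNM) _ ?_
    rw [← map_pow, ← hw0, hz]
  -- the unit
  obtain ⟨wO, hwO⟩ : ∃ wO : 𝓞 K, (wO : K) = w0 := ⟨⟨w0, hint⟩, rfl⟩
  have hwz : wO ^ p = (z : 𝓞 K) := by
    apply RingOfIntegers.ext
    change algebraMap (𝓞 K) K (wO ^ p) = _
    rw [map_pow, hw0, ← hwO]
  obtain ⟨w, hw⟩ : ∃ w : (𝓞 K)ˣ, (w : 𝓞 K) = wO := by
    have h : IsUnit (wO ^ p) := by
      rw [hwz]
      exact z.isUnit
    exact (isUnit_pow_iff hpp.ne_zero).1 h
  have hwK : ((w : 𝓞 K) : K) = w0 := by rw [hw, hwO]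
  refine ⟨w, by rw [hwK]; exact hn, ?_, ?_⟩
  · apply Units.ext
    rw [Units.val_pow_eq_pow_val, hw]
    exact hwz
  -- step D
  have key : ∀ v : HeightOneSpectrum (𝓞 K), v.valuation K (w0 - 1) ≤
      v.valuation K ((p : K) ^ (M - 1)) := by
    intro v
    by_cases h : (p : 𝓞 K) ∈ v.asIdeal
    · exact hMUZ p hp2 K v h (hNM v h) w0 M (by omega) (by rw [← hw0]; exact vz1 v)
    · have h1 : v.valuation K (p : K) = 1 := by
        refine le_antisymm (vple v) (not_lt.1 fun h2 => h ?_)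
        have h5 : v.valuation K (algebraMap (𝓞 K) K (p : 𝓞 K)) < 1 := by
          rw [map_natCast]
          exact h2
        rwa [HeightOneSpectrum.valuation_lt_one_iff_mem] at h5
      rw [map_pow, h1, one_pow]
      have h6 : v.valuation K (algebraMap (𝓞 K) K (wO - 1)) ≤ 1 := v.valuation_le_one _
      rw [map_sub, map_one] at h6
      rw [← hwO]
      exact h6
  -- step E
  have hp1 : (p : K) ^ (M - 1) ≠ 0 := pow_ne_zero _ hp0
  have hall : ∀ v : HeightOneSpectrum (𝓞 K),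
      v.valuation K ((w0 - 1) / (p : K) ^ (M - 1)) ≤ 1 := by
    intro v
    rw [map_div₀]
    exact div_le_one_of_le₀ (key v) zero_le
  obtain ⟨q, hq⟩ := HeightOneSpectrum.mem_integers_of_valuation_le_one K _ hall
  refine ⟨q, ?_⟩
  apply RingOfIntegers.ext
  change algebraMap (𝓞 K) K ((w : 𝓞 K) - 1) = algebraMap (𝓞 K) K ((p : 𝓞 K) ^ (M - 1) * q)
  rw [map_sub, map_one, map_mul, map_pow, map_natCast, hq, mul_div_cancel₀ _ hp1]
  exact congrArg (fun x : K => x - 1) hwK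

end Pool.Agent.N118.OL
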